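import Mathlib
import Pool.Agent.helper81.DI.SpecB

/-!
# Project di, module B0: facts on `CycQ`
-/

set_option autoImplicit false

namespace Pool.Agent.DI

open Pool.Agent.helper58.DC

theorem B0_iff {Γ : Type} [Group Γ] (G' : Subgroup Γ) [G'.Normal] :
    CycQ G' ↔ IsCyclic (Γ ⧸ G') := by
  constructor
  · rintro ⟨_, s, hs⟩
    refine ⟨⟨(QuotientGroup.mk s : Γ ⧸ G'), ?_⟩⟩
    intro q
    obtain ⟨x, rfl⟩ := QuotientGroup.mk_surjective q
    obtain ⟨k, hk⟩ := hs x
    refine ⟨-k, ?_⟩
    show (QuotientGroup.mk s : Γ ⧸ G') ^ (-k) = QuotientGroup.mk x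
    rw [← QuotientGroup.mk_zpow, QuotientGroup.eq]
    simpa using hk
  · intro h
    refine ⟨inferInstance, ?_⟩
    obtain ⟨⟨g, hg⟩⟩ := h
    obtain ⟨s, rfl⟩ := QuotientGroup.mk_surjective g
    refine ⟨s, fun x => ?_⟩
    obtain ⟨k, hk⟩ := hg (QuotientGroup.mk x)
    refine ⟨-k, ?_⟩
    change (QuotientGroup.mk s : Γ ⧸ G') ^ k = QuotientGroup.mk x at hk
    rw [← QuotientGroup.mk_zpow, QuotientGroup.eq] at hk
    simpa using hk

theorem B0 : B0_stmt := by
  refine ⟨?_, ?_, ?_, ?_⟩
  · intro Γ _ G' h x y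
    have := h.1
    have hc := (B0_iff G').1 h
    have hcomm : ∀ a b : Γ ⧸ G', a * b = b * a := by
      let _ := hc.commGroup
      intro a b
      exact mul_comm a b
    rw [← QuotientGroup.eq_one_iff]
    have := hcomm (QuotientGroup.mk x) (QuotientGroup.mk y)
    rw [QuotientGroup.mk_mul, QuotientGroup.mk_mul, QuotientGroup.mk_mul, this]
    rw [QuotientGroup.mk_inv, QuotientGroup.mk_inv]
    group
  · intro Γ _ _ G' N h
    have := h.1
    have hc := (B0_iff G').1 h
    rw [B0_iff]
    refine isCyclic_of_injective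
      (QuotientGroup.map (G'.subgroupOf N) G' N.subtype (fun x hx => hx)) ?_
    rw [injective_iff_map_eq_one]
    intro q hq
    obtain ⟨x, rfl⟩ := QuotientGroup.mk_surjective q
    rw [QuotientGroup.map_mk, QuotientGroup.eq_one_iff] at hq
    rw [QuotientGroup.eq_one_iff]
    exact hq
  · intro Γ _ G' _
    exact B0_iff G'
  · intro G E A _ _ _ X hA
    have hr : X.inc.range = X.proj.ker := by
      ext e
      rw [MonoidHom.mem_ker, X.exact, MonoidHom.mem_range]
    rw [hr, B0_iff]
    exact isCyclic_of_injective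
      (QuotientGroup.quotientKerEquivOfSurjective X.proj X.proj_surjective).toMonoidHom
      (MulEquiv.injective _)

end Pool.Agent.DI
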